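import Pool.Agent.W89.VP.Defs

set_option autoImplicit false

/-!
# Uniqueness of the value vector from large divisors (task PV-UNIQB)
-/

namespace Pool.Agent.W298.PVUniqB

open Pool.Agent.W89.VP Finset Polynomial

theorem det_bound (m : ℕ) (E : Matrix (Fin m) (Fin m) ℤ) (B : Fin m → ℝ)
    (hB : ∀ i j, |(E i j : ℝ)| ≤ B i) :
    |(E.det : ℝ)| ≤ (m.factorial : ℝ) * ∏ i, B i := by
  rw [Matrix.det_apply', Int.cast_sum]
  refine (Finset.abs_sum_le_sum_abs _ _).trans ?_
  have h : ∀ σ ∈ (Finset.univ : Finset (Equiv.Perm (Fin m))),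
      |(((Equiv.Perm.sign σ : ℤ) * ∏ i, E (σ i) i : ℤ) : ℝ)| ≤ ∏ i, B i := by
    intro σ _
    rw [Int.cast_mul, abs_mul]
    have h1 : |(((Equiv.Perm.sign σ : ℤˣ) : ℤ) : ℝ)| = 1 := by
      rcases Int.units_eq_one_or (Equiv.Perm.sign σ) with h | h <;> simp [h]
    rw [h1, one_mul, Int.cast_prod, Finset.abs_prod]
    calc ∏ i, |(E (σ i) i : ℝ)| ≤ ∏ i, B (σ i) :=
          Finset.prod_le_prod (fun _ _ => abs_nonneg _) (fun i _ => hB _ _)
      _ = ∏ i, B i := Equiv.prod_comp σ B
  refine (Finset.sum_le_sum h).trans ?_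
  rw [Finset.sum_const, Finset.card_univ, Fintype.card_perm, Fintype.card_fin, nsmul_eq_mul]

theorem exists_small (n m : ℕ) (hn : 0 < n) (h : m ≤ n) (L : Fin n → ℝ) :
    ∃ e : Fin m → Fin n, Function.Injective e ∧ (n : ℝ) * ∑ i, L (e i) ≤ m * ∑ j, L j := by
  have : NeZero n := ⟨by omega⟩
  have hsum : ∑ t : Fin n, (n : ℝ) * ∑ i : Fin m, L (Fin.castLE h i + t) =
      ∑ _t : Fin n, (m : ℝ) * ∑ j, L j := by
    rw [Finset.sum_const, Finset.card_univ, Fintype.card_fin, nsmul_eq_mul, ← Finset.mul_sum,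
      Finset.sum_comm]
    congr 1
    have : ∀ i ∈ (Finset.univ : Finset (Fin m)), ∑ t : Fin n, L (Fin.castLE h i + t) = ∑ j, L j :=
      fun i _ => Equiv.sum_comp (Equiv.addLeft (Fin.castLE h i)) L
    rw [Finset.sum_congr rfl this, Finset.sum_const, Finset.card_univ, Fintype.card_fin,
      nsmul_eq_mul]
  obtain ⟨t, -, ht⟩ := Finset.exists_le_of_sum_le (s := (Finset.univ : Finset (Fin n)))
    ⟨⟨0, hn⟩, Finset.mem_univ _⟩ (le_of_eq hsum)
  refine ⟨fun i => Fin.castLE h i + t, ?_, ht⟩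
  intro a b hab
  exact Fin.castLE_injective h (add_right_cancel hab)

theorem ds_dvd_Vd {n : ℕ} (y : Fin n → ℕ) (i j : Fin n) (h : i ≠ j) : ds (y i) (y j) ∣ Vd y := by
  have key : ∀ i j : Fin n, i < j → ds (y i) (y j) ∣ Vd y := by
    intro i j h
    unfold Vd
    refine dvd_trans ?_ (Finset.dvd_prod_of_mem _ (Finset.mem_univ i))
    exact Finset.dvd_prod_of_mem (fun j => ds (y i) (y j))
      (Finset.mem_filter.mpr ⟨Finset.mem_univ _, h⟩)
  rcases lt_or_gt_of_ne h with h | h
  · exact key i j h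
  · have : ds (y i) (y j) = ds (y j) (y i) := by
      unfold ds
      rw [← Int.natAbs_neg, neg_sub]
    rw [this]
    exact key j i h

theorem not_dvd_sub {n : ℕ} (y : Fin n → ℕ) (q : ℕ) (hq : ¬ q ∣ Vd y) (i j : Fin n) (h : i ≠ j) :
    ¬ (q : ℤ) ∣ (y i : ℤ) - (y j : ℤ) := by
  intro hd
  apply hq
  refine dvd_trans ?_ (ds_dvd_Vd y i j h)
  unfold ds
  exact Int.natCast_dvd.mp hd

/-- At most `δ` of the values of a primitive polynomial are divisible by `q`. -/
theorem card_roots_mod {n : ℕ} (y : Fin n → ℕ) (q : ℕ) (hq : q.Prime) (hV : ¬ q ∣ Vd y)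
    (π : ℤ[X]) (hπ : Irreducible π) (hdeg : 1 ≤ π.natDegree) :
    (Finset.univ.filter fun j : Fin n => (q : ℤ) ∣ π.eval (y j : ℤ)).card ≤ π.natDegree := by
  have : Fact q.Prime := ⟨hq⟩
  set πq : (ZMod q)[X] := π.map (Int.castRingHom (ZMod q)) with hπq
  have hprim : π.IsPrimitive := Irreducible.isPrimitive hπ (by omega)
  have hne : πq ≠ 0 := by
    intro h0
    have h1 : C (q : ℤ) ∣ π := by
      rw [Polynomial.C_dvd_iff_dvd_coeff]
      intro i
      have := congrArg (fun p => p.coeff i) h0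
      simp only [hπq, coeff_map, coeff_zero] at this
      exact (ZMod.intCast_zmod_eq_zero_iff_dvd _ _).mp (by simpa using this)
    have h2 := hprim (q : ℤ) h1
    have h3 := Int.isUnit_iff.mp h2
    have h4 := hq.two_le
    omega
  have hroot : ∀ j : Fin n, (q : ℤ) ∣ π.eval (y j : ℤ) → ((y j : ℕ) : ZMod q) ∈ πq.roots.toFinset := by
    intro j hj
    rw [Multiset.mem_toFinset, Polynomial.mem_roots hne, Polynomial.IsRoot.def]
    have h1 : πq.eval ((y j : ℕ) : ZMod q) = ((π.eval (y j : ℤ) : ℤ) : ZMod q) := by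
      rw [hπq, Polynomial.eval_map]
      have : (((y j : ℕ) : ZMod q)) = Int.castRingHom (ZMod q) (y j : ℤ) := by simp
      rw [this, Polynomial.eval₂_at_apply]
      rfl
    rw [h1]
    exact (ZMod.intCast_zmod_eq_zero_iff_dvd _ _).mpr hj
  calc (Finset.univ.filter fun j : Fin n => (q : ℤ) ∣ π.eval (y j : ℤ)).card
      ≤ πq.roots.toFinset.card := by
        refine Finset.card_le_card_of_injOn (fun j => ((y j : ℕ) : ZMod q)) ?_ ?_
        · intro j hj
          exact hroot j (Finset.mem_filter.mp hj).2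
        · intro i _ j _ hij
          by_contra hne
          apply not_dvd_sub y q hV i j hne
          have h1 : (((y i : ℤ) - (y j : ℤ) : ℤ) : ZMod q) = 0 := by
            have : ((y i : ℕ) : ZMod q) = ((y j : ℕ) : ZMod q) := hij
            push_cast
            rw [this, sub_self]
          exact (ZMod.intCast_zmod_eq_zero_iff_dvd _ _).mp h1
    _ ≤ Multiset.card πq.roots := Multiset.toFinset_card_le _
    _ ≤ πq.natDegree := Polynomial.card_roots' _
    _ ≤ π.natDegree := Polynomial.natDegree_map_le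

theorem main (h : UNIQAStm) : UNIQStm := by
  intro n δ N hδ hδn y hy π π' hπ hπ' hd hd' F F' hF hF' hF1 hF1' hFF p hpV hpF hpF' hT
  by_contra hne
  have hna : ¬ Associated π π' := by
    rintro ⟨u, hu⟩
    apply hne
    funext j
    rw [hF j, hF' j, ← hu, Polynomial.eval_mul, Int.natAbs_mul]
    have h1 : IsUnit ((u : ℤ[X]).eval (y j : ℤ)) := by
      have := u.isUnit.map (Polynomial.evalRingHom (y j : ℤ))
      exact this
    rw [Int.isUnit_iff_natAbs_eq.mp h1, mul_one]
  obtain ⟨ρ, hρ0, hρ⟩ := h δ hδ π π' hπ hπ' hd hd' hna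
  have hn0 : 0 < n := by omega
  have hp1 : ∀ j, 0 < p j := fun j => Nat.pos_of_dvd_of_pos (hpF j) (hF1 j)
  have hN1 : 1 ≤ N := (hy.2 ⟨0, hn0⟩).1.trans (hy.2 ⟨0, hn0⟩).2
  -- size
  have hsize : |(ρ : ℝ)| ≤ Tb n δ N F := by
    obtain ⟨e, hei, he⟩ := exists_small n (2 * δ) hn0 hδn (fun j => Real.log (F j))
    obtain ⟨E, hE1, hE2⟩ := hρ (fun i => (y (e i) : ℤ))
    have hvan : (1 : ℝ) ≤ |((Matrix.vandermonde fun i => (y (e i) : ℤ)).det : ℝ)| := by
      have h0 : (Matrix.vandermonde fun i => (y (e i) : ℤ)).det ≠ 0 := by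
        rw [Matrix.det_vandermonde_ne_zero_iff]
        intro a b hab
        have hab' : (y (e a) : ℤ) = (y (e b) : ℤ) := hab
        have : y (e a) = y (e b) := by exact_mod_cast hab'
        exact hei (hy.1 this)
      have := Int.one_le_abs h0
      exact_mod_cast this
    have hB := det_bound (2 * δ) E (fun i => (N : ℝ) ^ (δ - 1) * (2 * F (e i))) (by
      intro i j
      obtain ⟨b, hb, hE⟩ := hE2 i j
      have hyN : ((y (e i) : ℝ)) ≤ N := by exact_mod_cast (hy.2 (e i)).2
      have hpow : |(((y (e i) : ℤ) ^ b : ℤ) : ℝ)| ≤ (N : ℝ) ^ (δ - 1) := by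
        push_cast
        rw [abs_of_nonneg (by positivity)]
        calc (y (e i) : ℝ) ^ b ≤ (N : ℝ) ^ b := by gcongr
          _ ≤ (N : ℝ) ^ (δ - 1) := by
            apply pow_le_pow_right₀ (by exact_mod_cast hN1) (by omega)
      rcases hE with hE | hE
      · rw [hE, Int.cast_mul, abs_mul]
        have h1 : |((π.eval (y (e i) : ℤ) : ℤ) : ℝ)| ≤ 2 * F (e i) := by
          rw [hF (e i), ← Int.cast_abs, Nat.cast_natAbs]
          have : (0 : ℝ) ≤ ((|π.eval (y (e i) : ℤ)| : ℤ) : ℝ) := by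
            exact_mod_cast abs_nonneg _
          linarith
        gcongr
      · rw [hE, Int.cast_mul, abs_mul]
        have h1 : |((π'.eval (y (e i) : ℤ) : ℤ) : ℝ)| ≤ 2 * F (e i) := by
          have h2 : ((F' (e i) : ℕ) : ℝ) ≤ 2 * F (e i) := by exact_mod_cast hFF (e i)
          rw [hF' (e i), Nat.cast_natAbs] at h2
          rw [← Int.cast_abs]
          exact h2
        gcongr)
    rw [hE1, Int.cast_mul, abs_mul] at hB
    have h1 : |(ρ : ℝ)| ≤ ((2 * δ).factorial : ℝ) *
        ∏ i : Fin (2 * δ), ((N : ℝ) ^ (δ - 1) * (2 * F (e i))) := by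
      refine le_trans ?_ hB
      exact le_mul_of_one_le_right (abs_nonneg _) hvan
    refine h1.trans ?_
    rw [Finset.prod_mul_distrib, Finset.prod_mul_distrib, Finset.prod_const, Finset.prod_const,
      Finset.card_univ, Fintype.card_fin, ← pow_mul]
    unfold Tb
    have h2 : ∏ i : Fin (2 * δ), (F (e i) : ℝ) ≤ (∏ j, (F j : ℝ)) ^ ((2 * (δ : ℝ)) / (n : ℝ)) := by
      have hFpos : ∀ j, (0 : ℝ) < F j := fun j => by exact_mod_cast hF1 j
      have hP1 : (0 : ℝ) < ∏ i : Fin (2 * δ), (F (e i) : ℝ) :=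
        Finset.prod_pos fun i _ => hFpos _
      have hP2 : (0 : ℝ) < ∏ j, (F j : ℝ) := Finset.prod_pos fun i _ => hFpos _
      rw [← Real.log_le_log_iff hP1 (Real.rpow_pos_of_pos hP2 _), Real.log_rpow hP2,
        Real.log_prod (fun i _ => (hFpos _).ne'), Real.log_prod (fun i _ => (hFpos _).ne')]
      have hn' : (0 : ℝ) < n := by exact_mod_cast hn0
      rw [div_mul_eq_mul_div, le_div_iff₀ hn']
      push_cast at he
      linarith
    have h3 : (2 : ℝ) ^ (2 * δ) ≤ 4 ^ n := by
      calc (2 : ℝ) ^ (2 * δ) ≤ 2 ^ n := pow_le_pow_right₀ (by norm_num) hδn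
        _ ≤ 4 ^ n := by gcongr; norm_num
    have h4 : (N : ℝ) ^ ((δ - 1) * (2 * δ)) = (N : ℝ) ^ (2 * δ * (δ - 1)) := by
      rw [mul_comm]
    rw [h4]
    have hP1 : (0 : ℝ) ≤ ∏ i : Fin (2 * δ), (F (e i) : ℝ) :=
      Finset.prod_nonneg fun i _ => by positivity
    calc ((2 * δ).factorial : ℝ) * ((N : ℝ) ^ (2 * δ * (δ - 1)) *
          (2 ^ (2 * δ) * ∏ i : Fin (2 * δ), (F (e i) : ℝ)))
        = ((2 * δ).factorial : ℝ) * (N : ℝ) ^ (2 * δ * (δ - 1)) * 2 ^ (2 * δ) *
          ∏ i : Fin (2 * δ), (F (e i) : ℝ) := by ring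
      _ ≤ ((2 * δ).factorial : ℝ) * (N : ℝ) ^ (2 * δ * (δ - 1)) * 4 ^ n *
          (∏ j, (F j : ℝ)) ^ ((2 * (δ : ℝ)) / (n : ℝ)) := by gcongr
  -- divisibility
  have hdiv : (∏ j, p j) ∣ ρ.natAbs := by
    rw [Nat.dvd_iff_prime_pow_dvd_dvd]
    intro q k hq hk
    rcases Nat.eq_zero_or_pos k with rfl | hkpos
    · simp
    by_cases hex : ∃ j, q ∣ p j
    · obtain ⟨j0, hj0⟩ := hex
      have hqV : ¬ q ∣ Vd y := by
        intro hV
        have := Nat.dvd_gcd hj0 hV
        rw [Nat.Coprime.gcd_eq_one (hpV j0)] at this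
        exact hq.one_lt.ne' (Nat.dvd_one.mp this)
      have hcard := card_roots_mod y q hq hqV π hπ (by omega)
      obtain ⟨T, hJT, -, hTc⟩ := Finset.exists_subsuperset_card_eq
        (Finset.subset_univ (Finset.univ.filter fun j : Fin n => (q : ℤ) ∣ π.eval (y j : ℤ)))
        (n := 2 * δ) (by omega) (by simpa using hδn)
      set e : Fin (2 * δ) → Fin n := fun i => T.orderEmbOfFin hTc i with he
      have hei : Function.Injective e := (T.orderEmbOfFin hTc).injective
      have hrange : ∀ j, j ∉ T → ¬ q ∣ p j := by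
        intro j hj hqj
        apply hj
        apply hJT
        rw [Finset.mem_filter]
        refine ⟨Finset.mem_univ _, ?_⟩
        have h1 : (q : ℕ) ∣ (π.eval (y j : ℤ)).natAbs := by
          rw [← hF j]
          exact hqj.trans (hpF j)
        exact Int.natCast_dvd.mpr h1
      have hprod : ∏ i, p (e i) = ∏ j ∈ T, p j := by
        have h1 : T = Finset.univ.map (T.orderEmbOfFin hTc).toEmbedding := by
          ext j
          rw [Finset.mem_map]
          have := Finset.range_orderEmbOfFin T hTc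
          constructor
          · intro hj
            have : j ∈ Set.range (T.orderEmbOfFin hTc) := by rw [this]; exact hj
            obtain ⟨i, hi⟩ := this
            exact ⟨i, Finset.mem_univ _, hi⟩
          · rintro ⟨i, -, rfl⟩
            exact Finset.orderEmbOfFin_mem T hTc i
        conv_rhs => rw [h1]
        rw [Finset.prod_map]
        rfl
      -- q^k divides the product over T
      have hkT : q ^ k ∣ ∏ j ∈ T, p j := by
        rw [← Finset.prod_mul_prod_compl T p] at hk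
        refine Nat.Coprime.dvd_of_dvd_mul_right ?_ hk
        apply Nat.Coprime.pow_left
        rw [Nat.coprime_prod_right_iff]
        intro j hj
        rw [Nat.Prime.coprime_iff_not_dvd hq]
        exact hrange j (Finset.mem_compl.mp hj)
      obtain ⟨E, hE1, hE2⟩ := hρ (fun i => (y (e i) : ℤ))
      have hdet : (∏ i, (p (e i) : ℤ)) ∣ E.det := by
        have hrow : ∀ i j, (p (e i) : ℤ) ∣ E i j := by
          intro i j
          obtain ⟨b, -, hE⟩ := hE2 i j
          rcases hE with hE | hE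
          · rw [hE]
            apply Dvd.dvd.mul_left
            rw [Int.natCast_dvd, ← hF (e i)]
            exact hpF (e i)
          · rw [hE]
            apply Dvd.dvd.mul_left
            rw [Int.natCast_dvd, ← hF' (e i)]
            exact hpF' (e i)
        choose E' hE' using hrow
        have : E = Matrix.of fun i j => (p (e i) : ℤ) * (Matrix.of E') i j := by
          ext i j
          exact hE' i j
        rw [this, Matrix.det_mul_column]
        exact dvd_mul_right _ _
      have hkd : q ^ k ∣ ρ.natAbs * ((Matrix.vandermonde fun i => (y (e i) : ℤ)).det).natAbs := by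
        rw [← Int.natAbs_mul, ← hE1]
        have h1 : ((q ^ k : ℕ) : ℤ) ∣ E.det := by
          refine dvd_trans ?_ hdet
          have : (∏ i, (p (e i) : ℤ)) = ((∏ i, p (e i) : ℕ) : ℤ) := by push_cast; rfl
          rw [this, hprod]
          exact_mod_cast hkT
        exact Int.natCast_dvd.mp h1
      refine Nat.Coprime.dvd_of_dvd_mul_right ?_ hkd
      apply Nat.Coprime.pow_left
      rw [Nat.Prime.coprime_iff_not_dvd hq, Matrix.det_vandermonde]
      intro hcon
      have hqz : Prime (q : ℤ) := Nat.prime_iff_prime_int.mp hq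
      have h1 := Int.natCast_dvd.mpr hcon
      obtain ⟨a, -, ha⟩ := hqz.exists_mem_finset_dvd h1
      obtain ⟨b, hb, hab⟩ := hqz.exists_mem_finset_dvd ha
      rw [Finset.mem_Ioi] at hb
      exact not_dvd_sub y q hqV (e b) (e a) (fun h => hb.ne' (hei h)) hab
    · exfalso
      push Not at hex
      have h1 : q ∣ ∏ j, p j := (dvd_pow_self q (by omega)).trans hk
      obtain ⟨j, -, hj⟩ := (Nat.prime_iff.mp hq).exists_mem_finset_dvd h1
      exact hex j hj
  have hle : (∏ j, p j) ≤ ρ.natAbs := Nat.le_of_dvd (Int.natAbs_pos.mpr hρ0) hdiv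
  have hle' : (∏ j, (p j : ℝ)) ≤ |(ρ : ℝ)| := by
    have h1 : ((∏ j, p j : ℕ) : ℝ) ≤ ((ρ.natAbs : ℕ) : ℝ) := by exact_mod_cast hle
    rw [Nat.cast_natAbs, Int.cast_abs] at h1
    push_cast at h1
    exact h1
  linarith

end Pool.Agent.W298.PVUniqB
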