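import Mathlib

set_option autoImplicit false
namespace Pool.Agent.W298.PS

def leB (ν a : Fin 4 → ℕ) : Bool :=
  Nat.ble (ν 0) (a 0) && (Nat.ble (ν 1) (a 1) && (Nat.ble (ν 2) (a 2) && Nat.ble (ν 3) (a 3)))

lemma leB_iff (ν a : Fin 4 → ℕ) : leB ν a = true ↔ ν ≤ a := by
  simp only [leB, Bool.and_eq_true, Nat.ble_eq, Pi.le_def, Fin.forall_fin_succ, IsEmpty.forall_iff, and_true]
  constructor
  · rintro ⟨h0, h1, h2, h3⟩
    exact ⟨h0, h1, h2, h3⟩
  · rintro ⟨h0, h1, h2, h3⟩
    exact ⟨h0, h1, h2, h3⟩

def maskL : List (Fin 4 → ℕ) → (Fin 4 → ℕ) → ℕ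
  | [], _ => 0
  | (ν :: l), a => Nat.bit (leB ν a) (maskL l a)

def pcN : ℕ → ℕ → ℕ
  | 0, _ => 0
  | (n+1), m => m % 2 + pcN n (m / 2)

lemma pc_bit (n : ℕ) (b : Bool) (m : ℕ) : pcN (n+1) (Nat.bit b m) = b.toNat + pcN n m := by
  simp only [pcN]
  cases b
  · have h1 : (2 * m) / 2 = m := by omega
    simp [Nat.bit, h1]
  · have h1 : (2 * m + 1) / 2 = m := by omega
    have h2 : (2 * m + 1) % 2 = 1 := by omega
    simp [Nat.bit, h1, h2]

lemma pc_mask (l : List (Fin 4 → ℕ)) (a b c : Fin 4 → ℕ) :
    pcN l.length ((maskL l a ||| maskL l b) ||| maskL l c) =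
      l.countP (fun ν => leB ν a || leB ν b || leB ν c) := by
  induction l with
  | nil => simp [pcN]
  | cons ν l ih =>
    simp only [maskL, Nat.lor_bit, List.length_cons]
    rw [pc_bit, ih, List.countP_cons]
    rcases (leB ν a || leB ν b || leB ν c) <;> simp [add_comm]

/-- nibble table -/
def tabN : ℕ := 0x4332322132212110

/-- popcount by nibbles -/
noncomputable def pc4 (n : ℕ) : ℕ → ℕ :=
  Nat.rec (fun _ => 0) (fun _ ih m => Nat.add (Nat.land (Nat.shiftRight tabN (Nat.mul 4 (Nat.land m 15))) 15) (ih (Nat.shiftRight m 4))) n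

lemma tab_ok : ∀ x < 16, Nat.land (Nat.shiftRight tabN (Nat.mul 4 x)) 15 =
    x % 2 + ((x / 2) % 2 + ((x / 2 / 2) % 2 + (x / 2 / 2 / 2) % 2)) := by
  decide +kernel

lemma pc4_eq (n m : ℕ) : pc4 n m = pcN (4 * n) m := by
  induction n generalizing m with
  | zero => rfl
  | succ n ih =>
    have e : 4 * (n + 1) = 4 * n + 1 + 1 + 1 + 1 := by ring
    rw [e]
    simp only [pcN]
    have h1 : Nat.land m 15 = m % 16 := Nat.and_two_pow_sub_one_eq_mod m 4
    have h2 : Nat.shiftRight m 4 = m / 2 / 2 / 2 / 2 := by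
      show m >>> 4 = _
      rw [Nat.shiftRight_eq_div_pow]
      omega
    show Nat.add (Nat.land (Nat.shiftRight tabN (Nat.mul 4 (Nat.land m 15))) 15) (pc4 n (Nat.shiftRight m 4)) = _
    rw [ih, h1, h2, tab_ok _ (Nat.mod_lt _ (by norm_num))]
    have a1 : m % 16 % 2 = m % 2 := by omega
    have a2 : m % 16 / 2 % 2 = m / 2 % 2 := by omega
    have a3 : m % 16 / 2 / 2 % 2 = m / 2 / 2 % 2 := by omega
    have a4 : m % 16 / 2 / 2 / 2 % 2 = m / 2 / 2 / 2 % 2 := by omega
    rw [a1, a2, a3, a4]
    show (m % 2 + (m / 2 % 2 + (m / 2 / 2 % 2 + m / 2 / 2 / 2 % 2))) + pcN (4 * n) (m / 2 / 2 / 2 / 2) = _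
    ring

/-- is the 10 bit number of popcount 9 -/
def p9 (u : ℕ) : Bool := Bool.and (Nat.ble u 1022) (Nat.beq (Nat.land (Nat.sub 1023 u) (Nat.sub 1022 u)) 0)

lemma p9_ok : ∀ u < 1024, pcN 10 u = 9 → p9 u = true := by
  decide +kernel

noncomputable def test (a b c : ℕ × ℕ × ℕ) : Bool :=
  Bool.rec true
    (Bool.rec true (Bool.not (Nat.beq (pc4 14 (Nat.lor (Nat.lor a.2.2 b.2.2) c.2.2)) 6))
      (Nat.beq (pc4 5 (Nat.lor (Nat.lor a.2.1 b.2.1) c.2.1)) 11))
    (p9 (Nat.lor (Nat.lor a.1 b.1) c.1))

noncomputable def all1 (a b : ℕ × ℕ × ℕ) (l : List (ℕ × ℕ × ℕ)) : Bool :=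
  List.rec true (fun c _ ih => Bool.rec false ih (test a b c)) l

noncomputable def all2 (a : ℕ × ℕ × ℕ) (l : List (ℕ × ℕ × ℕ)) : Bool :=
  List.rec true (fun b t ih => Bool.rec false ih (all1 a b t)) l

noncomputable def all3 (l : List (ℕ × ℕ × ℕ)) : Bool :=
  List.rec true (fun a t ih => Bool.rec false ih (all2 a t)) l

def L (k : ℕ) : List (Fin 4 → ℕ) := List.Nat.antidiagonalTuple 4 k

def masks : List (ℕ × ℕ × ℕ) := [
  (1, 1, 1),
  (3, 3, 3),
  (7, 7, 6),
  (7, 15, 12),
  (7, 14, 24),
  (6, 12, 48),
  (4, 8, 32),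
  (9, 17, 65),
  (27, 51, 194),
  (31, 119, 388),
  (31, 126, 776),
  (30, 108, 1552),
  (20, 72, 1056),
  (41, 145, 2112),
  (59, 435, 6272),
  (63, 502, 12544),
  (62, 492, 25088),
  (52, 328, 17408),
  (41, 657, 34816),
  (59, 946, 102400),
  (62, 996, 204800),
  (52, 840, 147456),
  (41, 656, 294912),
  (58, 928, 851968),
  (52, 832, 655360),
  (40, 640, 1310720),
  (48, 768, 1572864),
  (32, 512, 1048576),
  (65, 1025, 2097153),
  (195, 3075, 6291458),
  (199, 7175, 12582916),
  (199, 7182, 25165832),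
  (198, 6156, 50331664),
  (132, 4104, 33554464),
  (329, 9233, 69206080),
  (475, 27699, 205521024),
  (479, 31862, 411042048),
  (478, 30828, 822084096),
  (404, 20552, 570426368),
  (361, 42129, 1140852736),
  (507, 60850, 3355447296),
  (510, 63972, 6710894592),
  (436, 53576, 4831854592),
  (361, 42640, 9663709184),
  (506, 60320, 27917352960),
  (436, 54080, 21474967552),
  (360, 41600, 42949935104),
  (432, 49920, 51540131840),
  (288, 33280, 34360786944),
  (577, 66561, 68721573888),
  (707, 199683, 206162624512),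
  (711, 203782, 412325249024),
  (710, 202764, 824650498048),
  (644, 135176, 549789368320),
  (841, 336913, 1168298213376),
  (987, 486450, 3436108054528),
  (990, 489572, 6872216109056),
  (916, 413768, 4948339195904),
  (873, 369808, 9896678391808),
  (1018, 518560, 28589449805824),
  (948, 446784, 21994527522816),
  (872, 369280, 43989055045632),
  (944, 443136, 52793738002432),
  (800, 295424, 35218731827200),
  (577, 590849, 70437463654400),
  (707, 723970, 211243671486464),
  (710, 727044, 422487342972928),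
  (644, 659464, 282024732524544),
  (841, 861200, 634418209226752),
  (986, 1009696, 1831786371874816),
  (916, 938048, 1411772930064384),
  (872, 893056, 2823545860128768),
  (944, 966912, 3395291906572288),
  (800, 819712, 2286984185774080),
  (577, 590848, 4573968371548160),
  (706, 722944, 13651536370466816),
  (644, 659456, 9288674231451648),
  (840, 860160, 23080948090273792),
  (912, 933888, 28147497671065600),
  (800, 819200, 20266198323167232),
  (576, 589824, 40532396646334464),
  (640, 655360, 45035996273704960),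
  (768, 786432, 54043195528445952),
  (512, 524288, 36028797018963968)]

lemma masks_eq : masks = (L 6).map (fun a => (maskL (L 2) a, maskL (L 3) a, maskL (L 5) a)) := by
  decide +kernel

lemma masks_ok : all3 masks = true := by
  decide +kernel

lemma all1_sound (a b : ℕ × ℕ × ℕ) (l : List (ℕ × ℕ × ℕ)) (h : all1 a b l = true) :
    ∀ c ∈ l, test a b c = true := by
  induction l with
  | nil => intro c hc; cases hc
  | cons x l ih =>
    have h' : Bool.rec (motive := fun _ => Bool) false (all1 a b l) (test a b x) = true := h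
    have hx : test a b x = true := by
      rcases ht : test a b x with _ | _
      · rw [ht] at h'; exact absurd h' Bool.false_ne_true
      · rfl
    have hl : all1 a b l = true := by
      rw [hx] at h'; exact h'
    intro c hc
    rcases List.mem_cons.1 hc with rfl | hc
    · exact hx
    · exact ih hl c hc

lemma all2_sound (a : ℕ × ℕ × ℕ) (l : List (ℕ × ℕ × ℕ)) (h : all2 a l = true) :
    ∀ b c, [b, c].Sublist l → test a b c = true := by
  induction l with
  | nil => intro b c hc; cases hc
  | cons x l ih =>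
    have h' : Bool.rec (motive := fun _ => Bool) false (all2 a l) (all1 a x l) = true := h
    have hx : all1 a x l = true := by
      rcases ht : all1 a x l with _ | _
      · rw [ht] at h'; exact absurd h' Bool.false_ne_true
      · rfl
    have hl : all2 a l = true := by
      rw [hx] at h'; exact h'
    intro b c hc
    rcases List.sublist_cons_iff.1 hc with hc | ⟨r, hr, hc⟩
    · exact ih hl b c hc
    · injection hr with e1 e2
      subst e1 e2
      exact all1_sound a b l hx c (List.singleton_sublist.1 hc)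

lemma all3_sound (l : List (ℕ × ℕ × ℕ)) (h : all3 l = true) :
    ∀ a b c, [a, b, c].Sublist l → test a b c = true := by
  induction l with
  | nil => intro a b c hc; cases hc
  | cons x l ih =>
    have h' : Bool.rec (motive := fun _ => Bool) false (all3 l) (all2 x l) = true := h
    have hx : all2 x l = true := by
      rcases ht : all2 x l with _ | _
      · rw [ht] at h'; exact absurd h' Bool.false_ne_true
      · rfl
    have hl : all3 l = true := by
      rw [hx] at h'; exact h'
    intro a b c hc
    rcases List.sublist_cons_iff.1 hc with hc | ⟨r, hr, hc⟩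
    · exact ih hl a b c hc
    · injection hr with e1 e2
      subst e1 e2
      exact all2_sound a l hx b c hc

lemma len2 : (L 2).length = 10 := by decide +kernel
lemma len3 : (L 3).length = 20 := by decide +kernel
lemma len5 : (L 5).length = 56 := by decide +kernel

lemma maskL_lt (l : List (Fin 4 → ℕ)) (a : Fin 4 → ℕ) : maskL l a < 2 ^ l.length := by
  induction l with
  | nil => simp [maskL]
  | cons ν l ih =>
    simp only [maskL, List.length_cons, pow_succ]
    rcases leB ν a <;> simp only [Nat.bit, cond] <;> omega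

/-- the finite core: no three monomials of degree 6 in four variables have the required counts -/
theorem core (a b c : Fin 4 → ℕ) (h : [a, b, c].Sublist (L 6))
    (h2 : (L 2).countP (fun ν => leB ν a || leB ν b || leB ν c) = 9)
    (h3 : (L 3).countP (fun ν => leB ν a || leB ν b || leB ν c) = 11)
    (h5 : (L 5).countP (fun ν => leB ν a || leB ν b || leB ν c) = 6) : False := by
  have hs := h.map (fun a => (maskL (L 2) a, maskL (L 3) a, maskL (L 5) a))
  rw [← masks_eq] at hs
  have ht := all3_sound _ masks_ok _ _ _ hs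
  rw [← pc_mask, len2] at h2
  rw [← pc_mask, len3] at h3
  rw [← pc_mask, len5] at h5
  have hlt : ((maskL (L 2) a ||| maskL (L 2) b) ||| maskL (L 2) c) < 1024 := by
    have e : (1024 : ℕ) = 2 ^ 10 := by norm_num
    rw [e]
    have := len2
    refine Nat.or_lt_two_pow (Nat.or_lt_two_pow ?_ ?_) ?_
    · have := maskL_lt (L 2) a; rwa [len2] at this
    · have := maskL_lt (L 2) b; rwa [len2] at this
    · have := maskL_lt (L 2) c; rwa [len2] at this
  have hp9 := p9_ok _ hlt h2
  have e3 := pc4_eq 5 ((maskL (L 3) a ||| maskL (L 3) b) ||| maskL (L 3) c)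
  have e5 := pc4_eq 14 ((maskL (L 5) a ||| maskL (L 5) b) ||| maskL (L 5) c)
  norm_num at e3 e5
  rw [h3] at e3
  rw [h5] at e5
  have ht' : Bool.rec (motive := fun _ => Bool) true
    (Bool.rec (motive := fun _ => Bool) true (Bool.not (Nat.beq (pc4 14 ((maskL (L 5) a ||| maskL (L 5) b) ||| maskL (L 5) c)) 6))
      (Nat.beq (pc4 5 ((maskL (L 3) a ||| maskL (L 3) b) ||| maskL (L 3) c)) 11))
    (p9 ((maskL (L 2) a ||| maskL (L 2) b) ||| maskL (L 2) c)) = true := ht
  rw [hp9, e3, e5] at ht'
  exact absurd ht' (by decide)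

end Pool.Agent.W298.PS
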