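import Mathlib
import Pool.Agent.W298.PS2

set_option autoImplicit false
namespace Pool.Agent.W298.PS

open Finset

/-- number of degree k monomials in four variables dividing one of the elements of T -/
lemma mem_L (k : ℕ) (ν : Fin 4 → ℕ) : ν ∈ L k ↔ ∑ i, ν i = k := by
  unfold L
  exact List.Nat.mem_antidiagonalTuple

lemma nodup_L (k : ℕ) : (L k).Nodup := List.Nat.nodup_antidiagonalTuple 4 k

/-- no finite down-closed pure set of monomials has the counts -/
theorem no_pure {r : ℕ} (M : Finset (Fin r → ℕ))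
    (hdown : ∀ μ ∈ M, ∀ ν : Fin r → ℕ, ν ≤ μ → ν ∈ M)
    (hpure : ∀ μ ∈ M, ∀ ν ∈ M, (∀ κ ∈ M, μ ≤ κ → κ = μ) → (∀ κ ∈ M, ν ≤ κ → κ = ν) →
        ∑ i, μ i = ∑ i, ν i)
    (h1 : (M.filter (fun μ => ∑ i, μ i = 1)).card = 4)
    (h2 : (M.filter (fun μ => ∑ i, μ i = 2)).card = 9)
    (h3 : (M.filter (fun μ => ∑ i, μ i = 3)).card = 11)
    (h5 : (M.filter (fun μ => ∑ i, μ i = 5)).card = 6)
    (h6 : (M.filter (fun μ => ∑ i, μ i = 6)).card = 3)
    (h7 : ∀ k, 6 < k → (M.filter (fun μ => ∑ i, μ i = k)).card = 0) : False := by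
  classical
  -- the variables
  set S : Finset (Fin r) := Finset.univ.filter (fun i => Pi.single i 1 ∈ M) with hS
  have hScard : S.card = 4 := by
    rw [← h1]
    refine Finset.card_bij (fun i _ => (Pi.single i 1 : Fin r → ℕ)) ?_ ?_ ?_
    · intro i hi
      simp only [hS, Finset.mem_filter, Finset.mem_univ, true_and] at hi
      simp [hi, Finset.sum_pi_single']
    · intro i _ j _ hij
      by_contra hne
      have := congrFun hij i
      simp [Pi.single_apply, hne] at this
    · intro μ hμ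
      simp only [Finset.mem_filter] at hμ
      obtain ⟨hμM, hμ1⟩ := hμ
      have : ∃ i, μ i ≠ 0 := by
        by_contra hcon
        push Not at hcon
        simp [hcon] at hμ1
      obtain ⟨i, hi⟩ := this
      have hle : (Pi.single i 1 : Fin r → ℕ) ≤ μ := by
        intro j
        by_cases hj : j = i
        · subst hj; simp; omega
        · simp [Pi.single_apply, hj]
      have hiM := hdown μ hμM _ hle
      refine ⟨i, by simp [hS, hiM], ?_⟩
      funext j
      by_contra hne
      have hlt : (Pi.single i 1 : Fin r → ℕ) j < μ j := lt_of_le_of_ne (hle j) hne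
      have : ∑ j, (Pi.single i 1 : Fin r → ℕ) j < ∑ j, μ j :=
        Finset.sum_lt_sum (fun j _ => hle j) ⟨j, Finset.mem_univ _, hlt⟩
      rw [hμ1, Finset.sum_pi_single'] at this
      simp at this
  have hsupp : ∀ μ ∈ M, ∀ i, i ∉ S → μ i = 0 := by
    intro μ hμ i hi
    by_contra hne
    apply hi
    simp only [hS, Finset.mem_filter, Finset.mem_univ, true_and]
    refine hdown μ hμ _ ?_
    intro j
    by_cases hj : j = i
    · subst hj; simp; omega
    · simp [Pi.single_apply, hj]
  let e : Fin 4 ≃ S := (Fintype.equivFinOfCardEq (by simpa using hScard)).symm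
  let f : Fin 4 → Fin r := fun j => (e j).1
  have hf : Function.Injective f := fun a b hab => e.injective (Subtype.ext hab)
  have hfS : ∀ i ∈ S, ∃ j, f j = i := fun i hi => ⟨e.symm ⟨i, hi⟩, by simp [f]⟩
  have hfM : ∀ j, f j ∈ S := fun j => (e j).2
  let g : (Fin r → ℕ) → (Fin 4 → ℕ) := fun μ j => μ (f j)
  have hsum : ∀ μ ∈ M, ∑ j, g μ j = ∑ i, μ i := by
    intro μ hμ
    have : ∑ i, μ i = ∑ i ∈ S, μ i := by
      symm
      apply Finset.sum_subset (Finset.subset_univ _)
      intro i _ hi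
      exact hsupp μ hμ i hi
    rw [this]
    refine Finset.sum_bij (fun j _ => f j) (fun j _ => hfM j) (fun a _ b _ h => hf h) ?_ (fun j _ => rfl)
    intro i hi
    obtain ⟨j, hj⟩ := hfS i hi
    exact ⟨j, Finset.mem_univ _, hj⟩
  have hginj : ∀ μ ∈ M, ∀ ν ∈ M, g μ = g ν → μ = ν := by
    intro μ hμ ν hν h
    funext i
    by_cases hi : i ∈ S
    · obtain ⟨j, rfl⟩ := hfS i hi
      exact congrFun h j
    · rw [hsupp μ hμ i hi, hsupp ν hν i hi]
  let ex : (Fin 4 → ℕ) → (Fin r → ℕ) := fun ν => Function.extend f ν 0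
  have hgex : ∀ ν, g (ex ν) = ν := by
    intro ν
    funext j
    exact hf.extend_apply ν 0 j
  have hexle : ∀ μ ν, ν ≤ g μ → ex ν ≤ μ := by
    intro μ ν h i
    by_cases hi : ∃ j, f j = i
    · obtain ⟨j, rfl⟩ := hi
      show Function.extend f ν 0 (f j) ≤ _
      rw [hf.extend_apply]
      exact h j
    · show Function.extend f ν 0 i ≤ _
      rw [Function.extend_apply' _ _ _ hi]
      exact Nat.zero_le _
  -- the top degree
  set T : Finset (Fin r → ℕ) := M.filter (fun μ => ∑ i, μ i = 6) with hT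
  have hdeg : ∀ μ ∈ M, ∑ i, μ i ≤ 6 := by
    intro μ hμ
    by_contra hcon
    push Not at hcon
    have h := h7 _ hcon
    rw [Finset.card_eq_zero] at h
    have : μ ∈ M.filter (fun κ => ∑ i, κ i = ∑ i, μ i) := by simp [hμ]
    rw [h] at this
    simp at this
  have hmaxT : ∀ t ∈ T, ∀ κ ∈ M, t ≤ κ → κ = t := by
    intro t ht κ hκ hle
    simp only [hT, Finset.mem_filter] at ht
    by_contra hne
    have : ∃ j, t j < κ j := by
      by_contra hcon
      push Not at hcon
      exact hne (le_antisymm hcon hle)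
    obtain ⟨j, hj⟩ := this
    have h1 : ∑ j, t j < ∑ j, κ j := Finset.sum_lt_sum (fun j _ => hle j) ⟨j, Finset.mem_univ _, hj⟩
    have := hdeg κ hκ
    omega
  have hTne : ∃ t, t ∈ T := by
    have : 0 < T.card := by rw [h6]; norm_num
    exact Finset.card_pos.1 this
  have hcover : ∀ μ ∈ M, ∃ t ∈ T, μ ≤ t := by
    intro μ hμ
    obtain ⟨κ, hle, hκ⟩ := M.exists_le_maximal hμ
    refine ⟨κ, ?_, hle⟩
    obtain ⟨t, ht⟩ := hTne
    have htM : t ∈ M := (Finset.mem_filter.1 ht).1
    have h := hpure κ hκ.1 t htM (fun x hx hle => le_antisymm (hκ.2 hx hle) hle)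
      (fun x hx hle => hmaxT t ht x hx hle)
    simp only [hT, Finset.mem_filter]
    refine ⟨hκ.1, ?_⟩
    rw [h]
    exact (Finset.mem_filter.1 ht).2
  -- transfer
  set T' : Finset (Fin 4 → ℕ) := T.image g with hT'
  have hT'card : T'.card = 3 := by
    rw [hT', Finset.card_image_of_injOn, h6]
    intro μ hμ ν hν h
    exact hginj μ (Finset.mem_filter.1 hμ).1 ν (Finset.mem_filter.1 hν).1 h
  have hT'mem : ∀ t ∈ T', t ∈ L 6 := by
    intro t ht
    obtain ⟨μ, hμ, rfl⟩ := Finset.mem_image.1 ht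
    rw [mem_L, hsum μ (Finset.mem_filter.1 hμ).1]
    exact (Finset.mem_filter.1 hμ).2
  set s : List (Fin 4 → ℕ) := (L 6).filter (fun t => t ∈ T') with hs
  have hslen : s.length = 3 := by
    have hnd : s.Nodup := (nodup_L 6).filter _
    rw [← List.toFinset_card_of_nodup hnd, ← hT'card]
    congr 1
    ext t
    simp only [hs, List.mem_toFinset, List.mem_filter, decide_eq_true_eq]
    exact ⟨fun h => h.2, fun h => ⟨hT'mem t h, h⟩⟩
  obtain ⟨a, b, c, habc⟩ := List.length_eq_three.1 hslen
  have hsub : [a, b, c].Sublist (L 6) := by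
    rw [← habc]
    exact List.filter_sublist
  have hT'iff : ∀ t, t ∈ T' ↔ t = a ∨ t = b ∨ t = c := by
    intro t
    have : t ∈ s ↔ t ∈ T' := by
      simp only [hs, List.mem_filter, decide_eq_true_eq]
      exact ⟨fun h => h.2, fun h => ⟨hT'mem t h, h⟩⟩
    rw [← this, habc]
    simp
  have key : ∀ k, (L k).countP (fun ν => leB ν a || leB ν b || leB ν c) =
      (M.filter (fun μ => ∑ i, μ i = k)).card := by
    intro k
    rw [List.countP_eq_length_filter, ← List.toFinset_card_of_nodup ((nodup_L k).filter _)]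
    symm
    refine Finset.card_bij (fun μ _ => g μ) ?_ ?_ ?_
    · intro μ hμ
      simp only [Finset.mem_filter] at hμ
      simp only [List.mem_toFinset, List.mem_filter, Bool.or_eq_true, leB_iff]
      refine ⟨by rw [mem_L, hsum μ hμ.1, hμ.2], ?_⟩
      obtain ⟨t, ht, hle⟩ := hcover μ hμ.1
      have hgt : g t ∈ T' := Finset.mem_image_of_mem g ht
      have hgle : g μ ≤ g t := fun j => hle (f j)
      rcases (hT'iff _).1 hgt with h | h | h
      · left; left; rw [← h]; exact hgle
      · left; right; rw [← h]; exact hgle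
      · right; rw [← h]; exact hgle
    · intro μ hμ ν hν h
      exact hginj μ (Finset.mem_filter.1 hμ).1 ν (Finset.mem_filter.1 hν).1 h
    · intro ν hν
      simp only [List.mem_toFinset, List.mem_filter, Bool.or_eq_true, leB_iff] at hν
      obtain ⟨hνk, hν⟩ := hν
      have : ∃ t ∈ T', ν ≤ t := by
        rcases hν with (h | h) | h
        · exact ⟨a, (hT'iff a).2 (Or.inl rfl), h⟩
        · exact ⟨b, (hT'iff b).2 (Or.inr (Or.inl rfl)), h⟩
        · exact ⟨c, (hT'iff c).2 (Or.inr (Or.inr rfl)), h⟩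
      obtain ⟨t', ht', hle⟩ := this
      obtain ⟨t, ht, rfl⟩ := Finset.mem_image.1 ht'
      have hM : ex ν ∈ M := hdown t (Finset.mem_filter.1 ht).1 _ (hexle t ν hle)
      refine ⟨ex ν, ?_, hgex ν⟩
      simp only [Finset.mem_filter]
      refine ⟨hM, ?_⟩
      rw [← hsum _ hM, hgex]
      exact (mem_L k ν).1 hνk
  exact core a b c hsub (by rw [key, h2]) (by rw [key, h3]) (by rw [key, h5])

end Pool.Agent.W298.PS
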