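import Mathlib

set_option autoImplicit false
namespace Pool.Agent.W298.PS4

open Finset

/-- the subset of Fin 10 coded by a number -/
def S (b : ℕ) : Finset (Fin 10) := Finset.univ.filter (fun i => Nat.testBit b i.1 = true)

lemma mem_S (b : ℕ) (i : Fin 10) : i ∈ S b ↔ Nat.testBit b i.1 = true := by simp [S]

lemma S_inj (a b : ℕ) (ha : a < 1024) (hb : b < 1024) (h : S a = S b) : a = b := by
  apply Nat.eq_of_testBit_eq
  intro i
  by_cases hi : i < 10
  · have h1 := mem_S a ⟨i, hi⟩
    have h2 := mem_S b ⟨i, hi⟩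
    rw [h] at h1
    have h3 := h1.symm.trans h2
    simp only at h3
    exact Bool.eq_iff_iff.2 h3
  · have h10 : 2 ^ 10 ≤ 2 ^ i := Nat.pow_le_pow_right (by norm_num) (by omega)
    rw [Nat.testBit_lt_two_pow (by norm_num at h10; omega), Nat.testBit_lt_two_pow (by norm_num at h10; omega)]

lemma S_surj (F : Finset (Fin 10)) : ∃ b, b < 1024 ∧ S b = F := by
  have h : (Finset.range 1024).image S = Finset.univ := by
    apply Finset.eq_univ_of_card
    rw [Finset.card_image_of_injOn]
    · simp
    · intro a ha b hb hab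
      exact S_inj a b (by simpa using ha) (by simpa using hb) hab
  have : F ∈ (Finset.range 1024).image S := by rw [h]; exact Finset.mem_univ _
  obtain ⟨b, hb, rfl⟩ := Finset.mem_image.1 this
  exact ⟨b, by simpa using hb, rfl⟩

lemma card_S (b : ℕ) : (S b).card = (Nat.testBit b 0).toNat + (Nat.testBit b 1).toNat + (Nat.testBit b 2).toNat
    + (Nat.testBit b 3).toNat + (Nat.testBit b 4).toNat + (Nat.testBit b 5).toNat + (Nat.testBit b 6).toNat
    + (Nat.testBit b 7).toNat + (Nat.testBit b 8).toNat + (Nat.testBit b 9).toNat := by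
  have h : ∀ x : Bool, (if x = true then 1 else 0) = x.toNat := by decide
  unfold S
  rw [Finset.card_filter]
  simp only [Fin.sum_univ_succ, h]
  simp only [Finset.univ_eq_empty, Finset.sum_empty]
  simp
  ring

/-- bits of a number -/
def t (b i : ℕ) : Bool := Nat.testBit b i

/-- number of the first ten bits -/
def cb (b : ℕ) : ℕ := (t b 0).toNat + (t b 1).toNat + (t b 2).toNat
    + (t b 3).toNat + (t b 4).toNat + (t b 5).toNat + (t b 6).toNat
    + (t b 7).toNat + (t b 8).toNat + (t b 9).toNat

/-- counting sets through codes -/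
lemma card_eq_countP (p : Finset (Fin 10) → Prop) [DecidablePred p] (q : ℕ → Bool)
    (hpq : ∀ b < 1024, p (S b) ↔ q b = true) :
    ((Finset.univ : Finset (Finset (Fin 10))).filter p).card = (List.range 1024).countP q := by
  rw [List.countP_eq_length_filter, ← List.toFinset_card_of_nodup (List.nodup_range.filter _)]
  symm
  refine Finset.card_bij (fun b _ => S b) ?_ ?_ ?_
  · intro b hb
    simp only [List.mem_toFinset, List.mem_filter, List.mem_range] at hb
    simp only [Finset.mem_filter, Finset.mem_univ, true_and]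
    exact (hpq b hb.1).2 hb.2
  · intro a ha b hb h
    simp only [List.mem_toFinset, List.mem_filter, List.mem_range] at ha hb
    exact S_inj a b ha.1 hb.1 h
  · intro F hF
    simp only [Finset.mem_filter, Finset.mem_univ, true_and] at hF
    obtain ⟨b, hb, rfl⟩ := S_surj F
    refine ⟨b, ?_, rfl⟩
    simp only [List.mem_toFinset, List.mem_filter, List.mem_range]
    exact ⟨hb, (hpq b hb).1 hF⟩

/-- code version of piece 0 -/
def q0 (b : ℕ) : Bool := !(t b 9) && (!(t b 0 && (t b 1 && t b 2)) && (!(t b 3 && (t b 4 && t b 5)) &&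
  !(t b 6 && (t b 7 && t b 8))))

/-- code version of piece 1 -/
def q1 (b : ℕ) : Bool := !(t b 5) && (!(t b 8) && (!(t b 0 && (t b 1 && t b 2)) &&
  !(t b 3 && (t b 4 && (t b 6 && t b 7)))))

/-- code version of piece 2 -/
def q2 (b : ℕ) : Bool := !(t b 2) && (!(t b 5) && (!(t b 7) && !(t b 0 && (t b 1 && (t b 3 && (t b 4 && t b 6))))))

/-- code version of the complex -/
def qq (b : ℕ) : Bool := q0 b || (q1 b || q2 b)

lemma cnt : (List.range 1024).countP (fun b => qq b && Nat.beq (cb b) 0) = 1 ∧
    (List.range 1024).countP (fun b => qq b && Nat.beq (cb b) 1) = 10 ∧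
    (List.range 1024).countP (fun b => qq b && Nat.beq (cb b) 2) = 44 ∧
    (List.range 1024).countP (fun b => qq b && Nat.beq (cb b) 3) = 107 ∧
    (List.range 1024).countP (fun b => qq b && Nat.beq (cb b) 4) = 152 ∧
    (List.range 1024).countP (fun b => qq b && Nat.beq (cb b) 5) = 121 ∧
    (List.range 1024).countP (fun b => qq b && Nat.beq (cb b) 6) = 44 := by
  decide +kernel

lemma glue : (List.range 1024).all (fun b => ((q0 b && q1 b) == (q1 b && !(t b 9))) &&
    (((q0 b || q1 b) && q2 b) == (q2 b && !(t b 8 && t b 9)))) = true := by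
  decide +kernel

end Pool.Agent.W298.PS4
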